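import Pool.Agent.R49.MC.Mu

set_option autoImplicit false

open Finset Filter

namespace Pool.Agent.R49.MC

lemma tendsto_div {f : ℕ → ℕ} {g : ℕ → ℝ} (k : ℕ) (hf : ∀ A : ℕ, ∀ᶠ n : ℕ in atTop, n ^ A ≤ f n)
    (hg : ∀ᶠ n : ℕ in atTop, 0 < g n ∧ g n ≤ (n : ℝ) ^ k) :
    Tendsto (fun n : ℕ => (f n : ℝ) / g n) atTop atTop := by
  refine tendsto_atTop_mono' _ ?_ tendsto_natCast_atTop_atTop
  filter_upwards [hf (k + 1), hg] with n h1 h2
  rw [le_div_iff₀ h2.1]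
  have h3 : ((n : ℝ)) ^ (k + 1) ≤ f n := by exact_mod_cast h1
  calc (n : ℝ) * g n ≤ n * (n : ℝ) ^ k := mul_le_mul_of_nonneg_left h2.2 (Nat.cast_nonneg _)
    _ = (n : ℝ) ^ (k + 1) := by rw [pow_succ]; ring
    _ ≤ f n := h3

lemma g1 : ∀ᶠ n : ℕ in atTop, 0 < (n : ℝ) ^ 2 * Real.log n ∧
    (n : ℝ) ^ 2 * Real.log n ≤ (n : ℝ) ^ 3 := by
  filter_upwards [eventually_ge_atTop 2] with n hn
  have h : (2 : ℝ) ≤ n := by exact_mod_cast hn
  have hl : 0 < Real.log n := Real.log_pos (by linarith)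
  have hl2 : Real.log n ≤ n := (Real.log_le_sub_one_of_pos (by linarith)).trans (by linarith)
  refine ⟨by positivity, ?_⟩
  calc (n : ℝ) ^ 2 * Real.log n ≤ (n : ℝ) ^ 2 * n := mul_le_mul_of_nonneg_left hl2 (by positivity)
    _ = (n : ℝ) ^ 3 := by ring

lemma g2 : ∀ᶠ n : ℕ in atTop, 0 < (n : ℝ) ^ ((3 : ℝ) / 2) * Real.sqrt (Real.log n) ∧
    (n : ℝ) ^ ((3 : ℝ) / 2) * Real.sqrt (Real.log n) ≤ (n : ℝ) ^ 3 := by
  filter_upwards [eventually_ge_atTop 2] with n hn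
  have h : (2 : ℝ) ≤ n := by exact_mod_cast hn
  have hl : 0 < Real.log n := Real.log_pos (by linarith)
  have hl2 : Real.log n ≤ n := (Real.log_le_sub_one_of_pos (by linarith)).trans (by linarith)
  have hs : Real.sqrt (Real.log n) ≤ n := by
    calc Real.sqrt (Real.log n) ≤ Real.sqrt ((n : ℝ) ^ 2) := by
          apply Real.sqrt_le_sqrt
          nlinarith
      _ = n := Real.sqrt_sq (by linarith)
  have h32 : (n : ℝ) ^ ((3 : ℝ) / 2) ≤ (n : ℝ) ^ 2 := by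
    rw [← Real.rpow_natCast (n : ℝ) 2]
    exact Real.rpow_le_rpow_of_exponent_le (by linarith) (by norm_num)
  refine ⟨mul_pos (Real.rpow_pos_of_pos (by linarith) _) (Real.sqrt_pos.2 hl), ?_⟩
  calc (n : ℝ) ^ ((3 : ℝ) / 2) * Real.sqrt (Real.log n) ≤ (n : ℝ) ^ 2 * n :=
        mul_le_mul h32 hs (Real.sqrt_nonneg _) (by positivity)
    _ = (n : ℝ) ^ 3 := by ring

lemma g3 : ∀ᶠ n : ℕ in atTop, 0 < Real.sqrt ((n : ℝ) * Real.log n) ∧
    Real.sqrt ((n : ℝ) * Real.log n) ≤ (n : ℝ) ^ 1 := by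
  filter_upwards [eventually_ge_atTop 2] with n hn
  have h : (2 : ℝ) ≤ n := by exact_mod_cast hn
  have hl : 0 < Real.log n := Real.log_pos (by linarith)
  have hl2 : Real.log n ≤ n := (Real.log_le_sub_one_of_pos (by linarith)).trans (by linarith)
  refine ⟨Real.sqrt_pos.2 (by positivity), ?_⟩
  rw [pow_one]
  calc Real.sqrt ((n : ℝ) * Real.log n) ≤ Real.sqrt ((n : ℝ) ^ 2) := by
        apply Real.sqrt_le_sqrt
        nlinarith
    _ = n := Real.sqrt_sq (by linarith)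

lemma not_isBigO {f : ℕ → ℕ} {g : ℕ → ℝ}
    (h : Tendsto (fun n : ℕ => (f n : ℝ) / g n) atTop atTop)
    (hg : ∀ᶠ n : ℕ in atTop, 0 < g n) :
    ¬ ((fun n : ℕ => (f n : ℝ)) =O[atTop] g) := by
  intro hO
  obtain ⟨c, hc⟩ := hO.bound
  have h1 := h.eventually (eventually_gt_atTop c)
  obtain ⟨n, a1, a2, a3⟩ := (h1.and (hc.and hg)).exists
  rw [lt_div_iff₀ a3] at a1
  rw [Real.norm_of_nonneg (Nat.cast_nonneg _), Real.norm_of_nonneg a3.le] at a2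
  linarith

theorem C_superpoly (A : ℕ) : ∀ᶠ n : ℕ in atTop, n ^ A ≤ C n := by
  filter_upwards [D_superpoly A] with n hn using hn.trans (D_le_C n)

end Pool.Agent.R49.MC
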