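import Mathlib

set_option autoImplicit false

open Finset Filter

namespace Pool.Agent.R49.MC

/-- The set of the distinct values `n! / (p₁! ⋯ p_t!)` of the multinomial coefficients, where
`p₁, …, p_t` runs through the partitions of `n`. -/
def mvals (n : ℕ) : Finset ℕ :=
  (Finset.univ : Finset (Nat.Partition n)).image
    fun p => Nat.factorial n / (p.parts.map Nat.factorial).prod

/-- number of distinct multinomial coefficients with upper entry `n` -/
def M (n : ℕ) : ℕ := (mvals n).card

/-- number of unordered representations of `t` as a sum of two members of `mvals n`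
(equal summands allowed) -/
def r (n t : ℕ) : ℕ :=
  ((mvals n ×ˢ mvals n).filter fun q => q.1 ≤ q.2 ∧ q.1 + q.2 = t).card

/-- the set of all sums of two members of `mvals n` -/
def sums (n : ℕ) : Finset ℕ := (mvals n ×ˢ mvals n).image fun q => q.1 + q.2

/-- the collision excess `C(n) = ∑ₜ max (rₙ(t) - 1, 0)` (truncated subtraction) -/
def C (n : ℕ) : ℕ := ∑ t ∈ sums n, (r n t - 1)

/-- the number `D(n)` of the `t` with at least two representations -/
def D (n : ℕ) : ℕ := ((sums n).filter fun t => 2 ≤ r n t).card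

/-- the largest number of representations `μ(n) = maxₜ rₙ(t)` -/
def mu (n : ℕ) : ℕ := (sums n).sup (r n)

lemma prod_dvd (m : Multiset ℕ) : (m.map Nat.factorial).prod ∣ Nat.factorial m.sum := by
  induction m using Multiset.induction with
  | empty => simp
  | cons a m ih =>
    rw [Multiset.map_cons, Multiset.prod_cons, Multiset.sum_cons]
    exact (Nat.mul_dvd_mul_left _ ih).trans (Nat.factorial_mul_factorial_dvd_factorial_add _ _)

lemma mem_mvals {n x : ℕ} :
    x ∈ mvals n ↔ ∃ m : Multiset ℕ, (∀ a ∈ m, 0 < a) ∧ m.sum = n ∧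
      Nat.factorial n / (m.map Nat.factorial).prod = x := by
  constructor
  · intro h
    obtain ⟨p, -, hp⟩ := Finset.mem_image.1 h
    exact ⟨p.parts, fun x hx => p.parts_pos hx, p.parts_sum, hp⟩
  · rintro ⟨m, h0, h1, h2⟩
    exact Finset.mem_image.2 ⟨⟨m, fun {x} hx => h0 x hx, h1⟩, Finset.mem_univ _, h2⟩

/-- a padded version -/
lemma mem_of_le {n : ℕ} (m : Multiset ℕ) (h : m.sum ≤ n) :
    Nat.factorial n / (m.map Nat.factorial).prod ∈ mvals n := by
  have hf : (m.filter fun a => 0 < a).sum = m.sum := by
    conv_rhs => rw [← Multiset.filter_add_not (fun a => 0 < a) m]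
    rw [Multiset.sum_add]
    have : (m.filter fun a => ¬ 0 < a).sum = 0 := by
      apply Multiset.sum_eq_zero
      intro x hx
      have := (Multiset.mem_filter.1 hx).2
      omega
    omega
  have hp : ((m.filter fun a => 0 < a).map Nat.factorial).prod = (m.map Nat.factorial).prod := by
    conv_rhs => rw [← Multiset.filter_add_not (fun a => 0 < a) m]
    rw [Multiset.map_add, Multiset.prod_add]
    have : ((m.filter fun a => ¬ 0 < a).map Nat.factorial).prod = 1 := by
      apply Multiset.prod_eq_one
      intro x hx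
      obtain ⟨a, ha, rfl⟩ := Multiset.mem_map.1 hx
      have := (Multiset.mem_filter.1 ha).2
      have : a = 0 := by omega
      simp [this]
    rw [this, mul_one]
  refine mem_mvals.2 ⟨(m.filter fun a => 0 < a) + Multiset.replicate (n - m.sum) 1, ?_, ?_, ?_⟩
  · intro a ha
    rcases Multiset.mem_add.1 ha with ha | ha
    · exact (Multiset.mem_filter.1 ha).2
    · rw [Multiset.eq_of_mem_replicate ha]; norm_num
  · rw [Multiset.sum_add, hf, Multiset.sum_replicate]
    simp; omega
  · rw [Multiset.map_add, Multiset.prod_add, hp]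
    simp

/-- two different representations -/
lemma two_le_r {n x y z w t : ℕ} (hx : x ∈ mvals n) (hy : y ∈ mvals n) (hz : z ∈ mvals n)
    (hw : w ∈ mvals n) (hxy : x ≤ y) (hzw : z ≤ w) (h1 : x + y = t) (h2 : z + w = t)
    (hne : x ≠ z) : 2 ≤ r n t := by
  have hsub : ({(x, y), (z, w)} : Finset (ℕ × ℕ)) ⊆
      (mvals n ×ˢ mvals n).filter fun q => q.1 ≤ q.2 ∧ q.1 + q.2 = t := by
    intro q hq
    rw [Finset.mem_insert, Finset.mem_singleton] at hq
    rcases hq with rfl | rfl
    · simp [hx, hy, hxy, h1]
    · simp [hz, hw, hzw, h2]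
  have hc : ({(x, y), (z, w)} : Finset (ℕ × ℕ)).card = 2 := by
    rw [Finset.card_pair]
    intro h
    exact hne (Prod.mk.inj h).1
  rw [← hc]
  exact Finset.card_le_card hsub

lemma r_le_M (n t : ℕ) : r n t ≤ M n := by
  unfold r M
  refine Finset.card_le_card_of_injOn (fun q => q.1) ?_ ?_
  · intro q hq
    have := (Finset.mem_filter.1 (Finset.mem_coe.1 hq)).1
    exact (Finset.mem_product.1 this).1
  · intro q hq q' hq' h
    have h1 := (Finset.mem_filter.1 (Finset.mem_coe.1 hq)).2.2
    have h2 := (Finset.mem_filter.1 (Finset.mem_coe.1 hq')).2.2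
    have h3 : q.1 = q'.1 := h
    exact Prod.ext h3 (by omega)

lemma mu_le_M (n : ℕ) : mu n ≤ M n := Finset.sup_le fun t _ => r_le_M n t

lemma r_le_mu (n t : ℕ) : r n t ≤ mu n := by
  by_cases h : t ∈ sums n
  · exact Finset.le_sup (f := r n) h
  · have : r n t = 0 := by
      unfold r
      rw [Finset.card_eq_zero, Finset.filter_eq_empty_iff]
      intro q hq h2
      exact h (Finset.mem_image.2 ⟨q, hq, h2.2⟩)
    omega

lemma D_le_C (n : ℕ) : D n ≤ C n := by
  unfold D C
  rw [Finset.card_filter]
  refine Finset.sum_le_sum fun t _ => ?_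
  split_ifs with h <;> omega

lemma C_le (n : ℕ) : C n ≤ M n ^ 2 := by
  unfold C
  calc ∑ t ∈ sums n, (r n t - 1)
      ≤ ∑ t ∈ sums n, ((mvals n ×ˢ mvals n).filter fun q => q.1 + q.2 = t).card := by
        refine Finset.sum_le_sum fun t _ => (Nat.sub_le _ _).trans ?_
        unfold r
        refine Finset.card_le_card ?_
        intro q hq
        rw [Finset.mem_filter] at hq ⊢
        exact ⟨hq.1, hq.2.2⟩
    _ = (mvals n ×ˢ mvals n).card := by
        rw [Finset.card_eq_sum_card_fiberwise (f := fun q : ℕ × ℕ => q.1 + q.2) (t := sums n)]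
        intro q hq
        exact Finset.mem_coe.2 (Finset.mem_image.2 ⟨q, hq, rfl⟩)
    _ = M n ^ 2 := by rw [Finset.card_product, sq, M]

/-- a member of `mvals (n-5)` gives a sum with two representations -/
lemma M_le_D (n : ℕ) (hn : 5 ≤ n) : M (n - 5) ≤ D n := by
  have hch : 0 < n.choose 5 := Nat.choose_pos hn
  have key : ∀ y ∈ mvals (n - 5), 10 * (n.choose 5 * y) ∈ mvals n ∧
      20 * (n.choose 5 * y) ∈ mvals n ∧ 30 * (n.choose 5 * y) ∈ mvals n ∧ 0 < y := by
    intro y hy
    obtain ⟨m, -, h1, h2⟩ := mem_mvals.1 hy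
    set P := (m.map Nat.factorial).prod with hP
    have hd : P ∣ Nat.factorial (n - 5) := by rw [← h1]; exact prod_dvd m
    have hyP : (n - 5).factorial = y * P := by
      rw [← h2]; exact (Nat.div_mul_cancel hd).symm
    have hPpos : 0 < P := Nat.pos_of_dvd_of_pos hd (Nat.factorial_pos _)
    have hypos : 0 < y := by
      rcases Nat.eq_zero_or_pos y with h | h
      · rw [h, zero_mul] at hyP
        exact absurd hyP (Nat.factorial_pos _).ne'
      · exact h
    have hfac : n.factorial = n.choose 5 * 120 * (y * P) := by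
      rw [← hyP, ← Nat.choose_mul_factorial_mul_factorial hn]
      norm_num [Nat.factorial]
    refine ⟨?_, ?_, ?_, hypos⟩
    · have := mem_of_le (n := n) (3 ::ₘ 2 ::ₘ m) (by simp [h1]; omega)
      rw [Multiset.map_cons, Multiset.map_cons, Multiset.prod_cons, Multiset.prod_cons, ← hP,
        hfac] at this
      have e : n.choose 5 * 120 * (y * P) / (Nat.factorial 3 * (Nat.factorial 2 * P))
          = 10 * (n.choose 5 * y) := by
        apply Nat.div_eq_of_eq_mul_left (by positivity)
        norm_num [Nat.factorial]; ring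
      rwa [e] at this
    · have := mem_of_le (n := n) (3 ::ₘ m) (by simp [h1]; omega)
      rw [Multiset.map_cons, Multiset.prod_cons, ← hP, hfac] at this
      have e : n.choose 5 * 120 * (y * P) / (Nat.factorial 3 * P)
          = 20 * (n.choose 5 * y) := by
        apply Nat.div_eq_of_eq_mul_left (by positivity)
        norm_num [Nat.factorial]; ring
      rwa [e] at this
    · have := mem_of_le (n := n) (2 ::ₘ 2 ::ₘ m) (by simp [h1]; omega)
      rw [Multiset.map_cons, Multiset.map_cons, Multiset.prod_cons, Multiset.prod_cons, ← hP,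
        hfac] at this
      have e : n.choose 5 * 120 * (y * P) / (Nat.factorial 2 * (Nat.factorial 2 * P))
          = 30 * (n.choose 5 * y) := by
        apply Nat.div_eq_of_eq_mul_left (by positivity)
        norm_num [Nat.factorial]; ring
      rwa [e] at this
  unfold M D
  refine Finset.card_le_card_of_injOn (fun y => 40 * (n.choose 5 * y)) ?_ ?_
  · intro y hy
    obtain ⟨h10, h20, h30, h0⟩ := key y (Finset.mem_coe.1 hy)
    rw [Finset.mem_coe, Finset.mem_filter]
    have hpos : 0 < n.choose 5 * y := Nat.mul_pos hch h0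
    refine ⟨Finset.mem_image.2 ⟨(_, _), Finset.mem_product.2 ⟨h10, h30⟩, ?_⟩, ?_⟩
    · simp only; ring
    · exact two_le_r h10 h30 h20 h20 (by omega) le_rfl (by ring) (by ring) (by omega)
  · intro y _ y' _ h
    have h' : 40 * (n.choose 5 * y) = 40 * (n.choose 5 * y') := h
    have h2 := Nat.eq_of_mul_eq_mul_left (by norm_num) h'
    exact Nat.eq_of_mul_eq_mul_left hch h2

end Pool.Agent.R49.MC
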