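import Pool.Agent.R49.MC.Core

set_option autoImplicit false

open Finset Filter

namespace Pool.Agent.R49.MC

/-- primes up to `K` -/
def P (K : ℕ) : Finset ℕ := (Finset.range (K + 1)).filter Nat.Prime

lemma card_P (K : ℕ) : (P K).card = Nat.primeCounting K := by
  rw [P, Nat.primeCounting, Nat.primeCounting', Nat.count_eq_card_filter_range]

lemma mem_P {K p : ℕ} : p ∈ P K ↔ p ≤ K ∧ p.Prime := by
  simp [P]

lemma sum_P (K : ℕ) : ∑ p ∈ P K, p ≤ K ^ 2 := by
  have hc : (P K).card ≤ K := by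
    have : P K ⊆ Finset.Icc 1 K := by
      intro p hp
      rw [mem_P] at hp
      exact Finset.mem_Icc.2 ⟨hp.2.one_lt.le, hp.1⟩
    simpa using Finset.card_le_card this
  calc ∑ p ∈ P K, p ≤ (P K).card • K := Finset.sum_le_card_nsmul _ _ _ fun p hp => (mem_P.1 hp).1
    _ ≤ K ^ 2 := by rw [smul_eq_mul, sq]; exact Nat.mul_le_mul_right _ hc

/-- the products of `j` distinct primes up to `K` -/
def U (K j : ℕ) : Finset ℕ := ((P K).powersetCard j).image fun S => ∏ p ∈ S, p

lemma card_U (K j : ℕ) : (U K j).card = (Nat.primeCounting K).choose j := by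
  unfold U
  rw [Finset.card_image_of_injOn, Finset.card_powersetCard, card_P]
  intro S hS S' hS' h
  have h1 := (Finset.mem_powersetCard.1 (Finset.mem_coe.1 hS)).1
  have h2 := (Finset.mem_powersetCard.1 (Finset.mem_coe.1 hS')).1
  have e1 : (∏ p ∈ S, p).primeFactors = S :=
    Nat.primeFactors_prod fun p hp => (mem_P.1 (h1 hp)).2
  have e2 : (∏ p ∈ S', p).primeFactors = S' :=
    Nat.primeFactors_prod fun p hp => (mem_P.1 (h2 hp)).2
  have h' : (∏ p ∈ S, p) = ∏ p ∈ S', p := h
  rw [← e1, ← e2, h']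

lemma le_of_mem_U {K j u : ℕ} (h : u ∈ U K j) : u ≤ K ^ j := by
  obtain ⟨S, hS, rfl⟩ := Finset.mem_image.1 h
  obtain ⟨h1, h2⟩ := Finset.mem_powersetCard.1 hS
  calc ∏ p ∈ S, p ≤ K ^ S.card := Finset.prod_le_pow_card _ _ _ fun p hp => (mem_P.1 (h1 hp)).1
    _ = K ^ j := by rw [h2]

/-- a common factor `q` with `q * u` a multinomial coefficient for all `u ∈ U K j` -/
lemma exists_factor {n K : ℕ} (hK : K ^ 2 ≤ n) :
    ∃ q : ℕ, 0 < q ∧ ∀ j, ∀ u ∈ U K j, q * u ∈ mvals n := by
  set s : ℕ := ∏ p ∈ P K, p.factorial with hs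
  have hsum : ∑ p ∈ P K, p ≤ n := (sum_P K).trans hK
  have hsd : s ∣ n.factorial := by
    have h1 : s = (((P K).val).map Nat.factorial).prod := rfl
    rw [h1]
    refine (prod_dvd _).trans (Nat.factorial_dvd_factorial ?_)
    have h2 : ((P K).val).sum = ∑ p ∈ P K, p := by
      rw [Finset.sum_eq_multiset_sum, Multiset.map_id']
    rw [h2]
    exact hsum
  obtain ⟨q, hq⟩ := hsd
  have hspos : 0 < s := Finset.prod_pos fun p _ => Nat.factorial_pos p
  have hqpos : 0 < q := by
    rcases Nat.eq_zero_or_pos q with h | h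
    · rw [h, mul_zero] at hq
      exact absurd hq (Nat.factorial_pos _).ne'
    · exact h
  refine ⟨q, hqpos, ?_⟩
  intro j u hu
  obtain ⟨S, hS, rfl⟩ := Finset.mem_image.1 hu
  obtain ⟨h1, h2⟩ := Finset.mem_powersetCard.1 hS
  set f : ℕ → ℕ := fun p => if p ∈ S then p - 1 else p with hf
  have hfle : ∀ p, f p ≤ p := by
    intro p
    simp only [hf]
    split_ifs <;> omega
  have hm := mem_of_le (n := n) (((P K).val).map f) (by
    have : ((P K).val.map f).sum = ∑ p ∈ P K, f p := rfl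
    rw [this]
    exact (Finset.sum_le_sum fun p _ => hfle p).trans hsum)
  have e1 : (((P K).val.map f).map Nat.factorial).prod = ∏ p ∈ P K, (f p).factorial := by
    rw [Multiset.map_map]; rfl
  rw [e1] at hm
  have e2 : s = (∏ p ∈ S, p) * ∏ p ∈ P K, (f p).factorial := by
    have e3 : ∏ p ∈ S, p = ∏ p ∈ P K, (if p ∈ S then p else 1) := by
      rw [← Finset.prod_filter, Finset.filter_mem_eq_inter, Finset.inter_eq_right.2 h1]
    rw [e3, ← Finset.prod_mul_distrib, hs]
    refine Finset.prod_congr rfl fun p hp => ?_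
    simp only [hf]
    split_ifs with h
    · have := (mem_P.1 hp).2.pos
      exact (Nat.mul_factorial_pred this.ne').symm
    · rw [one_mul]
  have hfpos : 0 < ∏ p ∈ P K, (f p).factorial := Finset.prod_pos fun p _ => Nat.factorial_pos _
  have e4 : n.factorial / ∏ p ∈ P K, (f p).factorial = q * ∏ p ∈ S, p := by
    apply Nat.div_eq_of_eq_mul_left hfpos
    rw [hq, e2]; ring
  rwa [e4] at hm

/-- pigeonhole -/
lemma mu_ge {n K j : ℕ} (hK : K ^ 2 ≤ n) (hK1 : 1 ≤ K) :
    ((Nat.primeCounting K).choose j) ^ 2 ≤ 6 * K ^ j * mu n := by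
  obtain ⟨q, hq, hU⟩ := exists_factor hK
  set A := ((U K j) ×ˢ (U K j)).filter fun x => x.1 ≤ x.2 with hA
  set B := ((U K j) ×ˢ (U K j)).filter fun x => x.2 ≤ x.1 with hB
  have hAB : (U K j ×ˢ U K j).card ≤ A.card + B.card := by
    rw [← Finset.card_union_add_card_inter]
    have : U K j ×ˢ U K j ⊆ A ∪ B := by
      intro x hx
      rw [Finset.mem_union, hA, hB, Finset.mem_filter, Finset.mem_filter]
      rcases le_total x.1 x.2 with h | h
      · exact Or.inl ⟨hx, h⟩
      · exact Or.inr ⟨hx, h⟩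
    exact (Finset.card_le_card this).trans (Nat.le_add_right _ _)
  have hBA : B.card = A.card := by
    refine Finset.card_bij (fun x _ => (x.2, x.1)) ?_ ?_ ?_
    · intro x hx
      rw [hB, Finset.mem_filter, Finset.mem_product] at hx
      rw [hA, Finset.mem_filter, Finset.mem_product]
      exact ⟨⟨hx.1.2, hx.1.1⟩, hx.2⟩
    · intro x _ y _ h
      have := Prod.mk.inj h
      exact Prod.ext this.2 this.1
    · intro x hx
      rw [hA, Finset.mem_filter, Finset.mem_product] at hx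
      refine ⟨(x.2, x.1), ?_, rfl⟩
      rw [hB, Finset.mem_filter, Finset.mem_product]
      exact ⟨⟨hx.1.2, hx.1.1⟩, hx.2⟩
  have hfib : A.card ≤ (2 * K ^ j + 1) * mu n := by
    have hmaps : ∀ x ∈ A, x.1 + x.2 ∈ Finset.range (2 * K ^ j + 1) := by
      intro x hx
      rw [hA, Finset.mem_filter, Finset.mem_product] at hx
      have a1 := le_of_mem_U hx.1.1
      have a2 := le_of_mem_U hx.1.2
      rw [Finset.mem_range]
      omega
    rw [Finset.card_eq_sum_card_fiberwise (f := fun x : ℕ × ℕ => x.1 + x.2)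
      (t := Finset.range (2 * K ^ j + 1)) (fun x hx => Finset.mem_coe.2 (hmaps x hx))]
    calc ∑ t ∈ Finset.range (2 * K ^ j + 1), (A.filter fun x => x.1 + x.2 = t).card
        ≤ (Finset.range (2 * K ^ j + 1)).card • mu n := by
          refine Finset.sum_le_card_nsmul _ _ _ fun t _ => ?_
          refine le_trans ?_ (r_le_mu n (q * t))
          unfold r
          refine Finset.card_le_card_of_injOn (fun x => (q * x.1, q * x.2)) ?_ ?_
          · intro x hx
            rw [Finset.mem_coe, Finset.mem_filter, hA, Finset.mem_filter, Finset.mem_product] at hx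
            rw [Finset.mem_coe, Finset.mem_filter, Finset.mem_product]
            obtain ⟨⟨⟨b1, b2⟩, b3⟩, b4⟩ := hx
            refine ⟨⟨hU j _ b1, hU j _ b2⟩, Nat.mul_le_mul_left _ b3, ?_⟩
            rw [← b4, mul_add]
          · intro x _ y _ h
            have := Prod.mk.inj h
            exact Prod.ext (Nat.eq_of_mul_eq_mul_left hq this.1)
              (Nat.eq_of_mul_eq_mul_left hq this.2)
      _ = (2 * K ^ j + 1) * mu n := by rw [Finset.card_range, smul_eq_mul]
  have hKj : 1 ≤ K ^ j := Nat.one_le_pow _ _ hK1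
  rw [Finset.card_product, card_U, ← sq, hBA] at hAB
  calc ((Nat.primeCounting K).choose j) ^ 2 ≤ A.card + A.card := hAB
    _ ≤ 2 * ((2 * K ^ j + 1) * mu n) := by omega
    _ ≤ 6 * K ^ j * mu n := by
        have : 2 * (2 * K ^ j + 1) ≤ 6 * K ^ j := by omega
        calc 2 * ((2 * K ^ j + 1) * mu n) = (2 * (2 * K ^ j + 1)) * mu n := by ring
          _ ≤ (6 * K ^ j) * mu n := Nat.mul_le_mul_right _ this

lemma ev_K (A : ℕ) : ∀ᶠ K : ℕ in atTop,
    ((4 : ℝ) * (K : ℝ) ^ 2) ^ A * (6 * K ^ (2 * A + 1)) ≤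
      (((Nat.primeCounting K).choose (2 * A + 1) : ℕ) : ℝ) ^ 2 := by
  set j := 2 * A + 1 with hj
  -- `log K = o(K)` and powers
  have h1 : ∀ᶠ K : ℕ in atTop, Real.log K ≤ (1 / (100 * (j : ℝ) + 100)) * K := by
    have := (Real.isLittleO_log_id_atTop.bound (c := 1 / (100 * (j : ℝ) + 100)) (by positivity))
    have h := tendsto_natCast_atTop_atTop.eventually (this.and (eventually_ge_atTop (1 : ℝ)))
    filter_upwards [h] with K hK
    have hl : 0 ≤ Real.log (K : ℝ) := Real.log_nonneg hK.2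
    have := hK.1
    simp only [id] at this
    rwa [Real.norm_of_nonneg hl, Real.norm_of_nonneg (by linarith [hK.2])] at this
  have h2 : ∀ᶠ K : ℕ in atTop, Real.log K ^ (2 * j) ≤
      (1 / (6 * 16 ^ j * (j.factorial : ℝ) ^ 2 * 4 ^ A)) * K := by
    have h0 := (Real.isLittleO_pow_log_id_atTop (n := 2 * j)).bound
      (c := 1 / (6 * 16 ^ j * (j.factorial : ℝ) ^ 2 * 4 ^ A)) (by positivity)
    have h := tendsto_natCast_atTop_atTop.eventually (h0.and (eventually_ge_atTop (1 : ℝ)))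
    filter_upwards [h] with K hK
    have hl : 0 ≤ Real.log (K : ℝ) := Real.log_nonneg hK.2
    have := hK.1
    simp only [id] at this
    rwa [Real.norm_of_nonneg (pow_nonneg hl _), Real.norm_of_nonneg (by linarith [hK.2])] at this
  filter_upwards [h1, h2, eventually_ge_atTop 100] with K a1 a2 a3
  have hK : (100 : ℝ) ≤ K := by exact_mod_cast a3
  have hK0 : (0 : ℝ) < K := by linarith
  have hL : 0 < Real.log K := Real.log_pos (by linarith)
  have hlog2 : (0.69 : ℝ) < Real.log 2 := by have := Real.log_two_gt_d9; linarith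
  have hj0 : (0 : ℝ) ≤ (j : ℝ) := Nat.cast_nonneg _
  -- log K ≤ K/100, j log K ≤ K/100
  have b1 : (j : ℝ) * Real.log K ≤ K / 100 := by
    calc (j : ℝ) * Real.log K ≤ j * ((1 / (100 * (j : ℝ) + 100)) * K) :=
          mul_le_mul_of_nonneg_left a1 hj0
      _ = (j / (100 * (j : ℝ) + 100)) * K := by ring
      _ ≤ (1 / 100) * K := by
          refine mul_le_mul_of_nonneg_right ?_ hK0.le
          rw [div_le_div_iff₀ (by positivity) (by norm_num)]
          linarith
      _ = K / 100 := by ring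
  have b2 : Real.log K ≤ K / 100 := by
    calc Real.log K ≤ (1 / (100 * (j : ℝ) + 100)) * K := a1
      _ ≤ (1 / 100) * K := by
          refine mul_le_mul_of_nonneg_right ?_ hK0.le
          apply one_div_le_one_div_of_le (by norm_num)
          linarith
      _ = K / 100 := by ring
  have b3 : Real.log ((K : ℝ) + 1) ≤ K / 100 + 1 := by
    have : Real.log ((K : ℝ) + 1) ≤ Real.log K + 1 := by
      have h : (K : ℝ) + 1 ≤ K * Real.exp 1 := by
        have := Real.add_one_le_exp (1 : ℝ)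
        nlinarith
      calc Real.log ((K : ℝ) + 1) ≤ Real.log (K * Real.exp 1) :=
            Real.log_le_log (by linarith) h
        _ = Real.log K + 1 := by rw [Real.log_mul hK0.ne' (Real.exp_pos _).ne', Real.log_exp]
    linarith
  have hpi := Chebyshev.pi_ge K
  have b4 : (K : ℝ) / (4 * Real.log K) + j ≤ (Nat.primeCounting K : ℝ) := by
    refine le_trans ?_ hpi
    rw [le_div_iff₀ hL, add_mul]
    have e : (K : ℝ) / (4 * Real.log K) * Real.log K = K / 4 := by
      field_simp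
    rw [e]
    nlinarith
  -- choose
  have b5 : ((K : ℝ) / (4 * Real.log K)) ^ j ≤ (j.factorial : ℝ) *
      ((Nat.primeCounting K).choose j : ℕ) := by
    have hc := Nat.pow_le_choose (α := ℝ) j (Nat.primeCounting K)
    have hle : (j : ℝ) ≤ Nat.primeCounting K := by
      have : 0 ≤ (K : ℝ) / (4 * Real.log K) := by positivity
      linarith
    have hle' : j ≤ Nat.primeCounting K := by exact_mod_cast hle
    have hc' : ((Nat.primeCounting K + 1 - j : ℕ) : ℝ) ^ j ≤ (j.factorial : ℝ) *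
      ((Nat.primeCounting K).choose j : ℕ) := by
      have := (div_le_iff₀ (by positivity : (0 : ℝ) < (j.factorial : ℝ))).1 hc
      linarith
    refine le_trans (pow_le_pow_left₀ (by positivity) ?_ j) hc'
    rw [Nat.cast_sub (by omega)]
    push_cast
    linarith
  have hf : (0 : ℝ) < (j.factorial : ℝ) := by positivity
  have b6 : ((K : ℝ) / (4 * Real.log K)) ^ (2 * j) ≤ (j.factorial : ℝ) ^ 2 *
      (((Nat.primeCounting K).choose j : ℕ) : ℝ) ^ 2 := by
    calc ((K : ℝ) / (4 * Real.log K)) ^ (2 * j) = (((K : ℝ) / (4 * Real.log K)) ^ j) ^ 2 := by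
          rw [mul_comm 2 j, pow_mul]
      _ ≤ ((j.factorial : ℝ) * ((Nat.primeCounting K).choose j : ℕ)) ^ 2 :=
          pow_le_pow_left₀ (by positivity) b5 2
      _ = _ := by ring
  have b7 : Real.log K ^ (2 * j) * (6 * 16 ^ j * (j.factorial : ℝ) ^ 2 * 4 ^ A) ≤ K := by
    rw [one_div, inv_mul_eq_div, le_div_iff₀ (by positivity)] at a2
    exact a2
  have hLj : (0 : ℝ) < Real.log K ^ (2 * j) := by positivity
  have b8 : ((K : ℝ) / (4 * Real.log K)) ^ (2 * j) = K ^ (2 * j) / (16 ^ j * Real.log K ^ (2 * j)) := by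
    rw [div_pow, mul_pow, pow_mul (4 : ℝ) 2 j]
    norm_num
  rw [b8, div_le_iff₀ (by positivity)] at b6
  -- final
  have b9 : ((4 : ℝ) * (K : ℝ) ^ 2) ^ A * (6 * K ^ j) *
      ((j.factorial : ℝ) ^ 2 * (16 ^ j * Real.log K ^ (2 * j))) ≤ (K : ℝ) ^ (2 * j) := by
    have e : ((4 : ℝ) * (K : ℝ) ^ 2) ^ A * (6 * K ^ j) *
      ((j.factorial : ℝ) ^ 2 * (16 ^ j * Real.log K ^ (2 * j))) =
      (Real.log K ^ (2 * j) * (6 * 16 ^ j * (j.factorial : ℝ) ^ 2 * 4 ^ A)) *
        ((K : ℝ) ^ (2 * A) * K ^ j) := by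
      rw [mul_pow, ← pow_mul]; ring
    rw [e]
    calc _ ≤ (K : ℝ) * ((K : ℝ) ^ (2 * A) * K ^ j) :=
          mul_le_mul_of_nonneg_right b7 (by positivity)
      _ = (K : ℝ) ^ (2 * j) := by
          rw [two_mul j]
          conv_rhs => rw [pow_add]
          conv_rhs => rw [hj]
          rw [hj]; ring
  have b10 : (0 : ℝ) < (j.factorial : ℝ) ^ 2 * (16 ^ j * Real.log K ^ (2 * j)) := by positivity
  have b11 : ((4 : ℝ) * (K : ℝ) ^ 2) ^ A * (6 * K ^ j) *
      ((j.factorial : ℝ) ^ 2 * (16 ^ j * Real.log K ^ (2 * j))) ≤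
      (((Nat.primeCounting K).choose j : ℕ) : ℝ) ^ 2 *
      ((j.factorial : ℝ) ^ 2 * (16 ^ j * Real.log K ^ (2 * j))) := by
    refine b9.trans (b6.trans (le_of_eq (by ring)))
  exact le_of_mul_le_mul_right b11 b10

/-- `μ(n)` grows faster than every polynomial -/
theorem mu_superpoly (A : ℕ) : ∀ᶠ n : ℕ in atTop, n ^ A ≤ mu n := by
  have hs : Tendsto Nat.sqrt atTop atTop := by
    refine tendsto_atTop_mono' _ ?_ (Filter.tendsto_atTop_atTop.2 fun b => ⟨b ^ 2, fun a ha => ?_⟩)
      (f₁ := Nat.sqrt)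
    · exact Eventually.of_forall fun n => le_rfl
    · exact Nat.le_sqrt'.2 ha
  filter_upwards [hs.eventually (ev_K A), hs.eventually (eventually_ge_atTop 1)] with n h1 h2
  set K := Nat.sqrt n with hKdef
  have hK : K ^ 2 ≤ n := Nat.sqrt_le' n
  have hn : n ≤ 4 * K ^ 2 := by
    have := Nat.lt_succ_sqrt' n
    rw [← hKdef] at this
    have h3 : (Nat.succ K) ^ 2 ≤ (2 * K) ^ 2 := Nat.pow_le_pow_left (by omega) 2
    calc n ≤ (Nat.succ K) ^ 2 := this.le
      _ ≤ (2 * K) ^ 2 := h3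
      _ = 4 * K ^ 2 := by ring
  have h3 := mu_ge (j := 2 * A + 1) hK h2
  have h4 : ((4 * K ^ 2) ^ A * (6 * K ^ (2 * A + 1)) : ℕ) ≤
      ((Nat.primeCounting K).choose (2 * A + 1)) ^ 2 := by
    exact_mod_cast h1
  have h5 : (4 * K ^ 2) ^ A * (6 * K ^ (2 * A + 1)) ≤ mu n * (6 * K ^ (2 * A + 1)) := by
    refine h4.trans (h3.trans (le_of_eq (by ring)))
  have hpos : 0 < 6 * K ^ (2 * A + 1) := by
    have : 0 < K ^ (2 * A + 1) := Nat.pow_pos (by omega)
    omega
  calc n ^ A ≤ (4 * K ^ 2) ^ A := Nat.pow_le_pow_left hn A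
    _ ≤ mu n := Nat.le_of_mul_le_mul_right h5 hpos

theorem D_superpoly (A : ℕ) : ∀ᶠ n : ℕ in atTop, n ^ A ≤ D n := by
  have h := (tendsto_sub_atTop_nat 5).eventually (mu_superpoly (A + 1))
  filter_upwards [h, eventually_ge_atTop (10 + 2 ^ (A + 1))] with n h1 h2
  have h3 : 5 ≤ n := by have : 10 ≤ n := le_trans (Nat.le_add_right _ _) h2
                        omega
  have h4 := M_le_D n h3
  have h5 := mu_le_M (n - 5)
  have hp2 : 0 < 2 ^ (A + 1) := by positivity
  have h6 : n ^ A ≤ (n - 5) ^ (A + 1) := by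
    have h10 : 10 ≤ n := le_trans (Nat.le_add_right _ _) h2
    have a1 : n ≤ 2 * (n - 5) := by clear h2 hp2; omega
    have a2 : 2 ^ (A + 1) ≤ n := le_trans (Nat.le_add_left _ _) h2
    have a3 : n ^ (A + 1) ≤ 2 ^ (A + 1) * (n - 5) ^ (A + 1) := by
      rw [← mul_pow]; exact Nat.pow_le_pow_left a1 _
    have a4 : n ^ A * n ≤ (n - 5) ^ (A + 1) * n := by
      calc n ^ A * n = n ^ (A + 1) := by rw [pow_succ]
        _ ≤ 2 ^ (A + 1) * (n - 5) ^ (A + 1) := a3
        _ ≤ n * (n - 5) ^ (A + 1) := Nat.mul_le_mul_right _ a2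
        _ = (n - 5) ^ (A + 1) * n := by ring
    exact Nat.le_of_mul_le_mul_right a4 (by omega)
  exact h6.trans (h1.trans (h5.trans h4))

end Pool.Agent.R49.MC
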